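import Pool.Agent.KS6_43.TH.Lower

/-!
Extensions of a graph of diameter two by a path which are `r`-ASC graphs.
-/

set_option autoImplicit false

open Finset SimpleGraph

namespace Pool.Agent.KS6_43.TH

variable {V : Type}

/-- adjacency in the extension of `G` by a path with `m` vertices whose first vertex is joined to
the vertices of `A` and whose last one to those of `B` -/
def extAdj (G : SimpleGraph V) (A B : Set V) (m : ℕ) : V ⊕ Fin m → V ⊕ Fin m → Prop
  | Sum.inl x, Sum.inl y => G.Adj x y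
  | Sum.inl x, Sum.inr i => (i.val = 0 ∧ x ∈ A) ∨ (i.val + 1 = m ∧ x ∈ B)
  | Sum.inr i, Sum.inl x => (i.val = 0 ∧ x ∈ A) ∨ (i.val + 1 = m ∧ x ∈ B)
  | Sum.inr i, Sum.inr j => i.val + 1 = j.val ∨ j.val + 1 = i.val

/-- the extension -/
def extG (G : SimpleGraph V) (A B : Set V) (m : ℕ) : SimpleGraph (V ⊕ Fin m) where
  Adj := extAdj G A B m
  symm := ⟨by
    rintro (x | i) (y | j) h
    · exact G.symm.symm _ _ h
    · exact h
    · exact h
    · exact h.symm⟩
  loopless := ⟨by
    rintro (x | i) h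
    · exact G.irrefl h
    · rcases h with h | h <;> omega⟩

lemma pot {W : Type} {H : SimpleGraph W} (hc : H.Connected) (f : W → ℕ)
    (hf : ∀ x y, H.Adj x y → f y ≤ f x + 1) (x y : W) : f y ≤ f x + H.dist x y := by
  obtain ⟨p, hp⟩ := (hc x y).exists_walk_length_eq_dist
  rw [← hp]
  clear hp
  induction p with
  | nil => simp
  | cons hadj p ih =>
    rw [Walk.length_cons]
    have := hf _ _ hadj
    omega

/-- distance at most `k` (for `k ≤ 1`) to a set -/
def Close (G : SimpleGraph V) (A : Set V) (x : V) (k : ℕ) : Prop :=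
  (k = 0 ∧ x ∈ A) ∨ (k = 1 ∧ ∃ u ∈ A, G.Adj x u) ∨ 2 ≤ k

/-- neighbouring or equal residues modulo `N` -/
def near (N p q : ℕ) : Prop := (p ≤ q + 1 ∧ q ≤ p + 1) ∨ (p + 1 = N ∧ q = 0) ∨ (q + 1 = N ∧ p = 0)

lemma near_symm {N p q : ℕ} (h : near N p q) : near N q p := by
  unfold near at *
  omega

/-- distance on a cycle -/
def cyc (N t p : ℕ) : ℕ := min ((p - t) + (t - p)) (N - ((p - t) + (t - p)))

lemma cyc_lip {N t p q : ℕ} (ht : t < N) (hp : p < N) (hq : q < N) (h : near N p q) :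
    cyc N t q ≤ cyc N t p + 1 := by
  unfold near at h
  unfold cyc
  omega

theorem asc_ext [Fintype V] {G : SimpleGraph V} {A B : Set V} {x0 : V} {m r α β δ : ℕ}
    (hr : 2 ≤ r) (hm : m + 1 + δ = 2 * r) (hαβ : α + β = δ + 2) (hα : α = 2)
    (hδ : δ = 1 ∨ δ = 2)
    (d2 : ∀ x y, x = y ∨ G.Adj x y ∨ ∃ z, G.Adj x z ∧ G.Adj z y)
    (a b : V → ℕ) (hA0 : A.Nonempty) (hB0 : B.Nonempty)
    (ha : ∀ x, Close G A x (a x)) (hb : ∀ x, Close G B x (b x))
    (hab : ∀ x, x ≠ x0 → a x + b x ≤ δ + 1) (hax : a x0 = α) (hbx : b x0 = β)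
    (hAB : δ = 1 → ∃ u ∈ A, ∃ v ∈ B, G.Adj u v)
    (π : V → ℕ) (hπr : ∀ x, π x < 2 * r) (hπG : ∀ x y, G.Adj x y → near (2 * r) (π x) (π y))
    (hπA : ∀ x ∈ A, near (2 * r) (π x) 1) (hπB : ∀ x ∈ B, near (2 * r) (π x) m)
    (hsurj : ∀ t, t < 2 * r → (t = 0 ∨ m < t) → ∃ x, π x = t)
    (h : V → ℕ) (h0 : h x0 = 0) (hG : ∀ x y, G.Adj x y → h y ≤ h x + 1)
    (hhA : ∀ x ∈ A, h x ≤ min (α + 1) (β + m) + 1 ∧ min (α + 1) (β + m) ≤ h x + 1)
    (hhB : ∀ x ∈ B, h x ≤ min (α + m) (β + 1) + 1 ∧ min (α + m) (β + 1) ≤ h x + 1) :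
    IsASC r (extG G A B m) := by
  classical
  set H := extG G A B m with hH
  have hm1 : 1 ≤ m := by omega
  set f0 : Fin m := ⟨0, by omega⟩ with hf0
  set fl : Fin m := ⟨m - 1, by omega⟩ with hfl
  have adj_ll : ∀ x y, H.Adj (Sum.inl x) (Sum.inl y) ↔ G.Adj x y := fun _ _ => Iff.rfl
  have adj_lr : ∀ x i, H.Adj (Sum.inl x) (Sum.inr i) ↔
    ((i.val = 0 ∧ x ∈ A) ∨ (i.val + 1 = m ∧ x ∈ B)) := fun _ _ => Iff.rfl
  have adj_rr : ∀ i j, H.Adj (Sum.inr i) (Sum.inr j) ↔ (i.val + 1 = j.val ∨ j.val + 1 = i.val) :=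
    fun _ _ => Iff.rfl
  -- walks
  have w2 : ∀ x y, ∃ p : H.Walk (Sum.inl x) (Sum.inl y), p.length ≤ 2 := by
    intro x y
    rcases d2 x y with rfl | h | ⟨z, h1, h2⟩
    · exact ⟨Walk.nil, by simp⟩
    · exact ⟨Walk.cons ((adj_ll x y).mpr h) Walk.nil, by simp⟩
    · exact ⟨Walk.cons ((adj_ll x z).mpr h1) (Walk.cons ((adj_ll z y).mpr h2) Walk.nil), by simp⟩
  have wpath : ∀ k : ℕ, ∀ i j : Fin m, j.val = i.val + k →
      ∃ p : H.Walk (Sum.inr i) (Sum.inr j), p.length = k := by
    intro k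
    induction k with
    | zero =>
      intro i j hij
      have : i = j := by
        ext
        omega
      subst this
      exact ⟨Walk.nil, rfl⟩
    | succ k ih =>
      intro i j hij
      obtain ⟨p, hp⟩ := ih ⟨i.val + 1, by omega⟩ j (by simp only; omega)
      refine ⟨Walk.cons ((adj_rr i ⟨i.val + 1, by omega⟩).mpr (Or.inl rfl)) p, ?_⟩
      rw [Walk.length_cons, hp]
  have wA : ∀ u ∈ A, H.Adj (Sum.inl u) (Sum.inr f0) := fun u hu =>
    (adj_lr u f0).mpr (Or.inl ⟨rfl, hu⟩)
  have wB : ∀ u ∈ B, H.Adj (Sum.inl u) (Sum.inr fl) := fun u hu =>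
    (adj_lr u fl).mpr (Or.inr ⟨by simp only [hfl]; omega, hu⟩)
  have hc : H.Connected := by
    have hreach : ∀ z, H.Reachable (Sum.inl x0) z := by
      rintro (y | j)
      · obtain ⟨p, -⟩ := w2 x0 y
        exact ⟨p⟩
      · obtain ⟨u, hu⟩ := hA0
        obtain ⟨p, -⟩ := w2 x0 u
        obtain ⟨q, -⟩ := wpath j.val f0 j (by simp [hf0])
        exact ⟨p.append (Walk.cons (wA u hu) q)⟩
    have : Nonempty (V ⊕ Fin m) := ⟨Sum.inl x0⟩
    exact ⟨fun x y => (hreach x).symm.trans (hreach y)⟩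
  -- upper bounds for distances
  have dgg : ∀ x y, H.dist (Sum.inl x) (Sum.inl y) ≤ 2 := fun x y => by
    obtain ⟨p, hp⟩ := w2 x y
    exact (dist_le p).trans hp
  have dpp : ∀ i j : Fin m, i.val ≤ j.val →
      H.dist (Sum.inr i) (Sum.inr j) ≤ j.val - i.val := fun i j hij => by
    obtain ⟨p, hp⟩ := wpath (j.val - i.val) i j (by omega)
    exact (dist_le p).trans hp.le
  have dadj : ∀ x y, H.Adj x y → H.dist x y ≤ 1 := fun x y hxy => by
    rw [dist_eq_one_iff_adj.mpr hxy]
  have dclose : ∀ (S : Set V) (q : Fin m), S.Nonempty →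
      (∀ u ∈ S, H.Adj (Sum.inl u) (Sum.inr q)) → ∀ x k, Close G S x k →
      H.dist (Sum.inl x) (Sum.inr q) ≤ k + 1 := by
    intro S q hS hadj x k hk
    rcases hk with ⟨rfl, hx⟩ | ⟨rfl, u, hu, hxu⟩ | hk
    · exact dadj _ _ (hadj x hx)
    · have h1 := dadj _ _ (hadj u hu)
      have h2 := dadj _ _ ((adj_ll x u).mpr hxu)
      have h3 := hc.dist_triangle (u := Sum.inl x) (v := Sum.inl u) (w := Sum.inr q)
      omega
    · obtain ⟨u, hu⟩ := hS
      have h1 := dadj _ _ (hadj u hu)
      have h2 := dgg x u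
      have h3 := hc.dist_triangle (u := Sum.inl x) (v := Sum.inl u) (w := Sum.inr q)
      omega
  have dxa : ∀ x (j : Fin m), H.dist (Sum.inl x) (Sum.inr j) ≤ a x + 1 + j.val := by
    intro x j
    have h1 := dclose A f0 hA0 wA x (a x) (ha x)
    have h2 := dpp f0 j (by simp [hf0])
    have h3 := hc.dist_triangle (u := Sum.inl x) (v := Sum.inr f0) (w := Sum.inr j)
    have h4 : f0.val = 0 := rfl
    omega
  have dxb : ∀ x (j : Fin m), H.dist (Sum.inl x) (Sum.inr j) ≤ b x + (m - j.val) := by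
    intro x j
    have h1 := dclose B fl hB0 wB x (b x) (hb x)
    have h4 : fl.val = m - 1 := rfl
    have h2 := dpp j fl (by omega)
    have h3 := hc.dist_triangle (u := Sum.inl x) (v := Sum.inr fl) (w := Sum.inr j)
    have h5 : H.dist (Sum.inr fl) (Sum.inr j) = H.dist (Sum.inr j) (Sum.inr fl) :=
      SimpleGraph.dist_comm
    have := j.isLt
    omega
  have dAB : ∃ u ∈ A, ∃ v ∈ B, H.dist (Sum.inl u) (Sum.inl v) ≤ δ := by
    rcases hδ with h1 | h2
    · obtain ⟨u, hu, v, hv, huv⟩ := hAB h1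
      refine ⟨u, hu, v, hv, ?_⟩
      have := dadj _ _ ((adj_ll u v).mpr huv)
      omega
    · obtain ⟨u, hu⟩ := hA0
      obtain ⟨v, hv⟩ := hB0
      exact ⟨u, hu, v, hv, (dgg u v).trans h2.ge⟩
  have dij : ∀ i j : Fin m, i.val ≤ j.val →
      H.dist (Sum.inr i) (Sum.inr j) ≤ i.val + 1 + δ + (m - j.val) := by
    intro i j hij
    obtain ⟨u, hu, v, hv, huv⟩ := dAB
    have h1 := dadj _ _ (wA u hu)
    have h2 := dadj _ _ (wB v hv)
    have h3 := dpp f0 i (by simp [hf0])
    have h4 : f0.val = 0 := rfl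
    have h5 : fl.val = m - 1 := rfl
    have h6 := dpp j fl (by omega)
    have t1 := hc.dist_triangle (u := Sum.inr i) (v := Sum.inr f0) (w := Sum.inr j)
    have t2 := hc.dist_triangle (u := Sum.inr f0) (v := Sum.inl u) (w := Sum.inr j)
    have t3 := hc.dist_triangle (u := Sum.inl u) (v := Sum.inl v) (w := Sum.inr j)
    have t4 := hc.dist_triangle (u := Sum.inl v) (v := Sum.inr fl) (w := Sum.inr j)
    have c1 : H.dist (Sum.inr i) (Sum.inr f0) = H.dist (Sum.inr f0) (Sum.inr i) :=
      SimpleGraph.dist_comm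
    have c2 : H.dist (Sum.inr f0) (Sum.inl u) = H.dist (Sum.inl u) (Sum.inr f0) :=
      SimpleGraph.dist_comm
    have c3 : H.dist (Sum.inr fl) (Sum.inr j) = H.dist (Sum.inr j) (Sum.inr fl) :=
      SimpleGraph.dist_comm
    have := j.isLt
    omega
  -- the map to the cycle of length `2 r`
  set πH : V ⊕ Fin m → ℕ := Sum.elim π fun j => j.val + 1 with hπH
  have hπl : ∀ x, πH (Sum.inl x) = π x := fun _ => rfl
  have hπi : ∀ j : Fin m, πH (Sum.inr j) = j.val + 1 := fun _ => rfl
  have hπlt : ∀ u, πH u < 2 * r := by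
    rintro (x | j)
    · exact hπr x
    · rw [hπi]
      have := j.isLt
      omega
  have hπadj : ∀ u v, H.Adj u v → near (2 * r) (πH u) (πH v) := by
    have hlr : ∀ x j, H.Adj (Sum.inl x) (Sum.inr j) → near (2 * r) (π x) (j.val + 1) := by
      intro x j hxj
      rcases (adj_lr x j).mp hxj with ⟨h1, h2⟩ | ⟨h1, h2⟩
      · rw [h1]
        exact hπA x h2
      · rw [h1]
        exact hπB x h2
    rintro (x | i) (y | j) huv
    · exact hπG x y huv
    · exact hlr x j huv
    · exact near_symm (hlr y i huv.symm)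
    · rw [hπi, hπi]
      rcases (adj_rr i j).mp huv with h1 | h1
      · unfold near
        omega
      · unfold near
        omega
  have hecc_ge : ∀ u, r ≤ ecc H u := by
    intro u
    obtain ⟨t, ht, htc⟩ : ∃ t, t < 2 * r ∧ (t = πH u + r ∨ t + r = πH u) := by
      rcases lt_or_ge (πH u) r with h1 | h1
      · exact ⟨πH u + r, by omega, Or.inl rfl⟩
      · exact ⟨πH u - r, by have := hπlt u; omega, Or.inr (by omega)⟩
    obtain ⟨u', hu'⟩ : ∃ u', πH u' = t := by
      by_cases h1 : t = 0 ∨ m < t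
      · obtain ⟨x, hx⟩ := hsurj t ht h1
        exact ⟨Sum.inl x, hx⟩
      · push Not at h1
        exact ⟨Sum.inr ⟨t - 1, by omega⟩, by rw [hπi]; simp only; omega⟩
    have h1 := pot hc (fun w => cyc (2 * r) (πH u) (πH w))
      (fun x y hxy => cyc_lip (hπlt u) (hπlt x) (hπlt y) (hπadj x y hxy)) u u'
    have h2 : cyc (2 * r) (πH u) (πH u') = r := by
      rw [hu']
      unfold cyc
      omega
    have h3 : cyc (2 * r) (πH u) (πH u) = 0 := by
      unfold cyc
      omega
    simp only [h2, h3] at h1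
    have := le_ecc (H := H) u u'
    omega
  -- the far pair
  set j0 : Fin m := ⟨r - 2, by omega⟩ with hj0
  have hj0v : j0.val = r - 2 := rfl
  have hfar : r + 1 ≤ H.dist (Sum.inl x0) (Sum.inr j0) := by
    have h1 := pot hc (Sum.elim h fun j : Fin m => min (α + (j.val + 1)) (β + (m - j.val)))
      (by
        have hlr : ∀ x (j : Fin m), H.Adj (Sum.inl x) (Sum.inr j) →
            h x ≤ min (α + (j.val + 1)) (β + (m - j.val)) + 1 ∧
            min (α + (j.val + 1)) (β + (m - j.val)) ≤ h x + 1 := by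
          intro x j hxj
          rcases (adj_lr x j).mp hxj with ⟨h1, h2⟩ | ⟨h1, h2⟩
          · have := hhA x h2
            rw [h1]
            omega
          · have := hhB x h2
            have h4 : m - j.val = 1 := by omega
            rw [h4, h1]
            exact this
        rintro (x | i) (y | j) huv
        · exact hG x y huv
        · exact (hlr x j huv).2
        · exact (hlr y i huv.symm).1
        · simp only [Sum.elim_inr]
          rcases (adj_rr i j).mp huv with h1 | h1 <;> omega) (Sum.inl x0) (Sum.inr j0)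
    simp only [Sum.elim_inl, Sum.elim_inr, h0, hj0v] at h1
    omega
  -- eccentricities
  have e_g : ∀ x, x ≠ x0 → ecc H (Sum.inl x) = r := by
    intro x hx
    refine le_antisymm (ecc_le ?_) (hecc_ge _)
    rintro (y | j)
    · exact (dgg x y).trans hr
    · have h1 := dxa x j
      have h2 := dxb x j
      have h3 := hab x hx
      have := j.isLt
      omega
  have e_p : ∀ j : Fin m, j ≠ j0 → ecc H (Sum.inr j) = r := by
    intro j hj
    have hjv : j.val ≠ r - 2 := fun h => hj (Fin.ext h)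
    refine le_antisymm (ecc_le ?_) (hecc_ge _)
    rintro (y | i)
    · rw [SimpleGraph.dist_comm]
      have h1 := dxa y j
      have h2 := dxb y j
      have := j.isLt
      by_cases hy : y = x0
      · subst hy
        omega
      · have h3 := hab y hy
        omega
    · rcases le_total i.val j.val with hij | hij
      · rw [SimpleGraph.dist_comm]
        have h1 := dpp i j hij
        have h2 := dij i j hij
        have := j.isLt
        omega
      · have h1 := dpp j i hij
        have h2 := dij j i hij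
        have := i.isLt
        omega
  have e_x : ecc H (Sum.inl x0) ≠ r := by
    have := le_ecc (H := H) (Sum.inl x0) (Sum.inr j0)
    omega
  have e_j : ecc H (Sum.inr j0) ≠ r := by
    have := le_ecc (H := H) (Sum.inr j0) (Sum.inl x0)
    rw [SimpleGraph.dist_comm] at this
    omega
  refine ⟨hc, hecc_ge, ?_, ?_⟩
  · -- some vertex of `A` or `B` differs from `x0`
    obtain ⟨t, ht⟩ : ∃ t : V, t ≠ x0 := by
      obtain ⟨u, hu⟩ := hA0
      refine ⟨u, ?_⟩
      rintro rfl
      have := hhA u hu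
      rw [h0] at this
      omega
    exact ⟨Sum.inl t, e_g t ht⟩
  · have hset : {x | ecc H x ≠ r} = {Sum.inl x0, Sum.inr j0} := by
      ext x
      simp only [Set.mem_ofPred_eq, Set.mem_insert_iff, Set.mem_singleton_iff]
      constructor
      · intro hx
        rcases x with y | j
        · by_cases hy : y = x0
          · exact Or.inl (by rw [hy])
          · exact absurd (e_g y hy) hx
        · by_cases hj : j = j0
          · exact Or.inr (by rw [hj])
          · exact absurd (e_p j hj) hx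
      · rintro (rfl | rfl)
        · exact e_x
        · exact e_j
    rw [hset]
    exact Set.ncard_pair (by simp)

end Pool.Agent.KS6_43.TH
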