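import Mathlib

/-!
Lower bound: an `r`-ASC graph has at least `2 r - 3` vertices outside every set of vertices whose
pairwise distances are at most two.
-/

set_option autoImplicit false

open Finset SimpleGraph

namespace Pool.Agent.KS6_43.TH

/-- The eccentricity of `u`: the largest distance from `u` to a vertex. -/
noncomputable def ecc {W : Type} [Fintype W] (H : SimpleGraph W) (u : W) : ℕ :=
  univ.sup fun v => H.dist u v

/-- `H` is an `r`-ASC graph: it is connected, its radius (the least eccentricity) is `r`, and exactly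
two of its vertices have eccentricity different from `r`. -/
def IsASC {W : Type} [Fintype W] (r : ℕ) (H : SimpleGraph W) : Prop :=
  H.Connected ∧ (∀ u, r ≤ ecc H u) ∧ (∃ u, ecc H u = r) ∧ {u | ecc H u ≠ r}.ncard = 2

/-- The `r`-ASC index `θ_r(G)`: the least `k` such that some `r`-ASC graph with `|V(G)| + k`
vertices contains `G` as an induced subgraph. -/
noncomputable def theta {V : Type} [Fintype V] (r : ℕ) (G : SimpleGraph V) : ℕ :=
  sInf {k | ∃ (W : Type) (_ : Fintype W) (H : SimpleGraph W),
    Fintype.card W = Fintype.card V + k ∧ IsASC r H ∧ Nonempty (G ↪g H)}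

variable {W : Type} {H : SimpleGraph W}

lemma ecc_le [Fintype W] {u : W} {r : ℕ} (h : ∀ v, H.dist u v ≤ r) : ecc H u ≤ r :=
  Finset.sup_le fun v _ => h v

lemma le_ecc [Fintype W] (u v : W) : H.dist u v ≤ ecc H u :=
  Finset.le_sup (f := fun v => H.dist u v) (mem_univ v)

lemma exists_far [Fintype W] {u : W} {r : ℕ} (h : r ≤ ecc H u) :
    ∃ v, r ≤ H.dist u v := by
  obtain ⟨v, _, hv⟩ := Finset.exists_mem_eq_sup univ ⟨u, mem_univ u⟩ fun v => H.dist u v
  exact ⟨v, by rw [← hv]; exact h⟩

/-- a point on a geodesic -/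
lemma geod (hc : H.Connected) (u v : W) (k : ℕ) (hk : k ≤ H.dist u v) :
    ∃ z, H.dist u z = k ∧ H.dist z v + k = H.dist u v := by
  obtain ⟨p, hp⟩ := (hc u v).exists_walk_length_eq_dist
  refine ⟨p.getVert k, ?_⟩
  have h1 : H.dist u (p.getVert k) ≤ k := by
    refine (dist_le (p.take k)).trans ?_
    rw [Walk.take_length]
    exact min_le_left _ _
  have h2 : H.dist (p.getVert k) v + k ≤ H.dist u v := by
    have := dist_le (p.drop k)
    rw [Walk.drop_length] at this
    omega
  have h3 := hc.dist_triangle (u := u) (v := p.getVert k) (w := v)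
  omega

/-- a level of a vertex of almost minimal eccentricity has two vertices -/
lemma level [Fintype W] (hc : H.Connected) {r t i : ℕ} (hrad : ∀ u, r ≤ ecc H u) {v : W}
    (hv : ∀ y, H.dist v y ≤ r + t) (h1 : t + 1 ≤ i) (h2 : i + t + 1 ≤ r) :
    2 ≤ (univ.filter fun y => H.dist v y = i).card := by
  classical
  by_contra hcon
  push Not at hcon
  obtain ⟨y0, hy0⟩ := exists_far (hrad v)
  obtain ⟨c, hc1, -⟩ := geod hc v y0 i (by omega)
  have huniq : ∀ z, H.dist v z = i → z = c := by
    intro z hz
    have h3 : (univ.filter fun y => H.dist v y = i).card ≤ 1 := by omega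
    exact Finset.card_le_one.mp h3 z (by simp [hz]) c (by simp [hc1])
  obtain ⟨w, hw1, hw2⟩ := geod hc v c (t + 1) (by omega)
  obtain ⟨y, hy⟩ := exists_far (hrad w)
  rcases le_or_gt i (H.dist v y) with h | h
  · obtain ⟨z, hz1, hz2⟩ := geod hc v y i h
    have hzc := huniq z hz1
    subst hzc
    have h4 := hc.dist_triangle (u := w) (v := z) (w := y)
    have h5 := hv y
    omega
  · have h4 := hc.dist_triangle (u := w) (v := v) (w := y)
    have h5 : H.dist w v = H.dist v w := SimpleGraph.dist_comm
    omega

/-- the number of vertices at distance at least three -/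
lemma far_card [Fintype W] [DecidableEq W] (hc : H.Connected) {r t : ℕ} (hrad : ∀ u, r ≤ ecc H u)
    {v y0 : W} (hv : ∀ y, H.dist v y ≤ r + t) (hy0 : r + t ≤ H.dist v y0) (h3 : t + 3 ≤ r)
    (ht : t ≤ 1) :
    2 * r ≤ (univ.filter fun y => 3 ≤ H.dist v y).card + 5 := by
  have hsum : ∑ i ∈ Ico 3 (r + t + 1), (univ.filter fun y => H.dist v y = i).card ≤
      (univ.filter fun y => 3 ≤ H.dist v y).card := by
    rw [← Finset.card_biUnion]
    · refine card_le_card fun y hy => ?_
      simp only [mem_biUnion, mem_Ico, mem_filter, mem_univ, true_and] at hy ⊢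
      obtain ⟨i, hi, h⟩ := hy
      omega
    · intro i _ j _ hij
      show Disjoint (univ.filter fun y => H.dist v y = i) (univ.filter fun y => H.dist v y = j)
      rw [Finset.disjoint_left]
      intro y h1 h2
      simp only [mem_filter, mem_univ, true_and] at h1 h2
      exact hij (h1.symm.trans h2)
  have hsplit := Finset.sum_Ico_consecutive
    (fun i => (univ.filter fun y => H.dist v y = i).card) (show 3 ≤ r - t by omega)
    (show r - t ≤ r + t + 1 by omega)
  have hA : 2 * (r - t - 3) ≤
      ∑ i ∈ Ico 3 (r - t), (univ.filter fun y => H.dist v y = i).card := by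
    have : ∑ i ∈ Ico 3 (r - t), 2 ≤
        ∑ i ∈ Ico 3 (r - t), (univ.filter fun y => H.dist v y = i).card := by
      refine Finset.sum_le_sum fun i hi => ?_
      rw [mem_Ico] at hi
      exact level hc hrad hv (by omega) (by omega)
    rw [Finset.sum_const, Nat.card_Ico, smul_eq_mul] at this
    omega
  have hB : 2 * t + 1 ≤
      ∑ i ∈ Ico (r - t) (r + t + 1), (univ.filter fun y => H.dist v y = i).card := by
    have : ∑ i ∈ Ico (r - t) (r + t + 1), 1 ≤
        ∑ i ∈ Ico (r - t) (r + t + 1), (univ.filter fun y => H.dist v y = i).card := by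
      refine Finset.sum_le_sum fun i hi => ?_
      rw [mem_Ico] at hi
      obtain ⟨z, hz, -⟩ := geod hc v y0 i (by omega)
      exact Finset.card_pos.mpr ⟨z, by simp [hz]⟩
    rw [Finset.sum_const, Nat.card_Ico, smul_eq_mul] at this
    omega
  omega

/-- in an `r`-ASC graph all eccentricities are at most `r + 1` -/
lemma ecc_le_succ [Fintype W] {r : ℕ} (hA : IsASC r H) (v : W) : ecc H v ≤ r + 1 := by
  classical
  obtain ⟨hc, hrad, -, h2⟩ := hA
  by_contra hcon
  push Not at hcon
  obtain ⟨y, hy⟩ := exists_far (H := H) (u := v) (r := r + 2) (by omega)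
  obtain ⟨z, hz1, hz2⟩ := geod hc v y (H.dist v y - 1) (by omega)
  have e1 : ecc H v ≠ r := by omega
  have e2 : ecc H y ≠ r := by
    have := le_ecc (H := H) y v
    rw [SimpleGraph.dist_comm] at this
    omega
  have e3 : ecc H z ≠ r := by
    have := le_ecc (H := H) z v
    rw [SimpleGraph.dist_comm] at this
    omega
  have n1 : v ≠ y := by
    rintro rfl
    rw [SimpleGraph.dist_self] at hy
    omega
  have n2 : v ≠ z := by
    rintro rfl
    rw [SimpleGraph.dist_self] at hz1
    omega
  have n3 : y ≠ z := by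
    rintro rfl
    omega
  have hsub : (({v, y, z} : Finset W) : Set W) ⊆ {u | ecc H u ≠ r} := by
    intro u hu
    simp only [coe_insert, coe_singleton, Set.mem_insert_iff, Set.mem_singleton_iff] at hu
    rcases hu with rfl | rfl | rfl
    · exact e1
    · exact e2
    · exact e3
  have h3 := Set.ncard_le_ncard hsub (Set.toFinite _)
  rw [Set.ncard_coe_finset, h2, card_insert_of_notMem (by simp [n1, n2]),
    card_insert_of_notMem (by simp [n3]), card_singleton] at h3
  omega

/-- radius three -/
lemma lower_three [Fintype W] [DecidableEq W] (hc : H.Connected) (hrad : ∀ u, 3 ≤ ecc H u)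
    (S : Finset W) (hS : S.Nonempty) (hd : ∀ x ∈ S, ∀ y ∈ S, H.dist x y ≤ 2) : 3 ≤ Sᶜ.card := by
  by_contra hcon
  push Not at hcon
  have hfar : ∀ g ∈ S, ∃ z ∈ Sᶜ, 3 ≤ H.dist g z := by
    intro g hg
    obtain ⟨z, hz⟩ := exists_far (hrad g)
    refine ⟨z, ?_, hz⟩
    rw [mem_compl]
    intro hzS
    have := hd g hg z hzS
    omega
  have dl1 : ∀ {x y : W}, H.Adj x y → H.dist x y ≤ 1 := fun h => by
    rw [dist_eq_one_iff_adj.mpr h]
  obtain ⟨s0, hs0⟩ := hS
  obtain ⟨z0, hz0, hz0'⟩ := hfar s0 hs0
  -- an edge between `S` and its complement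
  obtain ⟨g1, hg1, z1, hz1, hadj1⟩ : ∃ g ∈ S, ∃ z ∈ Sᶜ, H.Adj g z := by
    by_contra hcon2
    push Not at hcon2
    have hstep : ∀ x y : W, H.Walk x y → x ∈ S → y ∈ S := by
      intro x y p
      induction p with
      | nil => exact id
      | cons hadj p ih =>
        intro hx
        apply ih
        by_contra hv
        exact hcon2 _ hx _ (mem_compl.mpr hv) hadj
    obtain ⟨p⟩ := hc s0 z0
    exact (mem_compl.mp hz0) (hstep _ _ p hs0)
  obtain ⟨z2, hz2, hfar2⟩ := hfar g1 hg1
  have h12 : z1 ≠ z2 := by
    rintro rfl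
    have := dl1 hadj1
    omega
  have hZ2 : ∀ z ∈ Sᶜ, z = z1 ∨ z = z2 := by
    intro z hz
    by_contra hcon3
    push Not at hcon3
    have h3 : ({z1, z2, z} : Finset W) ⊆ Sᶜ := by
      intro t ht
      simp only [mem_insert, mem_singleton] at ht
      rcases ht with rfl | rfl | rfl <;> assumption
    have h4 := card_le_card h3
    rw [card_insert_of_notMem, card_insert_of_notMem, card_singleton] at h4
    · omega
    · simp [hcon3.2.symm]
    · simp [h12, hcon3.1.symm]
  have hz12 : ¬ H.Adj z1 z2 := by
    intro h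
    have h1 := dl1 hadj1
    have h2 := dl1 h
    have := hc.dist_triangle (u := g1) (v := z1) (w := z2)
    omega
  -- the neighbour of `z2` on a geodesic from `g1`
  obtain ⟨t, ht1, ht2⟩ := geod hc g1 z2 (H.dist g1 z2 - 1) (by omega)
  have ht : H.Adj t z2 := by
    rw [← dist_eq_one_iff_adj]
    omega
  have htS : t ∈ S := by
    by_contra htS
    rcases hZ2 t (mem_compl.mpr htS) with rfl | rfl
    · exact hz12 ht
    · exact H.irrefl ht
  have hd1 := hd g1 hg1 t htS
  obtain ⟨x, hx1, hx2⟩ := geod hc g1 t 1 (by omega)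
  have hx1' : H.Adj g1 x := dist_eq_one_iff_adj.mp hx1
  have hx2' : H.dist x t = 1 := by omega
  have hx2'' : H.Adj x t := dist_eq_one_iff_adj.mp hx2'
  by_cases hxS : x ∈ S
  · obtain ⟨z, hz, hz3⟩ := hfar x hxS
    rcases hZ2 z hz with rfl | rfl
    · have h1 := dl1 hx1'.symm
      have h2 := dl1 hadj1
      have := hc.dist_triangle (u := x) (v := g1) (w := z)
      omega
    · have h2 := dl1 ht
      have := hc.dist_triangle (u := x) (v := t) (w := z)
      omega
  · rcases hZ2 x (mem_compl.mpr hxS) with rfl | rfl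
    · obtain ⟨z, hz, hz3⟩ := hfar t htS
      rcases hZ2 z hz with rfl | rfl
      · have h2 := dl1 hx2''.symm
        omega
      · have h2 := dl1 ht
        omega
    · omega

/-- **Lower bound.** An `r`-ASC graph has at least `2 r - 3` vertices outside every set of vertices
whose pairwise distances are at most two. -/
theorem lower [Fintype W] [DecidableEq W] {r : ℕ} (hr : 2 ≤ r) (hA : IsASC r H)
    (S : Finset W) (hS : S.Nonempty) (hd : ∀ x ∈ S, ∀ y ∈ S, H.dist x y ≤ 2) :
    2 * r ≤ Sᶜ.card + 3 := by
  have hsucc := fun v => ecc_le_succ hA v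
  obtain ⟨hc, hrad, -, h2⟩ := hA
  rcases (by omega : r = 2 ∨ r = 3 ∨ 4 ≤ r) with rfl | rfl | hr4
  · -- radius two
    have h0 : {u | ecc H u ≠ 2}.Nonempty := by
      rw [Set.nonempty_iff_ne_empty]
      intro h
      rw [h, Set.ncard_empty] at h2
      omega
    obtain ⟨u, hu⟩ := h0
    have hu2 := hrad u
    have hu' : ecc H u ≠ 2 := hu
    obtain ⟨v, hv⟩ := exists_far (H := H) (u := u) (r := 3) (by omega)
    have : Sᶜ.Nonempty := by
      by_contra hcon
      rw [not_nonempty_iff_eq_empty, compl_eq_empty_iff] at hcon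
      have := hd u (by simp [hcon]) v (by simp [hcon])
      omega
    have := Finset.card_pos.mpr this
    omega
  · have := lower_three hc hrad S hS hd
    omega
  · obtain ⟨s, hs⟩ := hS
    obtain ⟨y, hy⟩ := exists_far (hrad s)
    obtain ⟨v, hvS, hvmin⟩ := Finset.exists_min_image S (fun x => H.dist x y) ⟨s, hs⟩
    have hvy : 2 ≤ H.dist v y := by
      have h3 := hc.dist_triangle (u := s) (v := v) (w := y)
      have h4 := hd s hs v hvS
      omega
    obtain ⟨q1, hq1, hq1'⟩ := geod hc v y 1 (by omega)
    obtain ⟨q2, hq2, hq2'⟩ := geod hc v y 2 hvy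
    have hq1S : q1 ∉ S := by
      intro h
      have := hvmin q1 h
      omega
    have hq2S : q2 ∉ S := by
      intro h
      have := hvmin q2 h
      omega
    -- the vertices at distance at least three from `v`
    have hF : 2 * r ≤ (univ.filter fun y => 3 ≤ H.dist v y).card + 5 := by
      rcases (by have := hrad v; have := hsucc v; omega : ecc H v = r + 0 ∨ ecc H v = r + 1)
        with h | h
      · obtain ⟨y0, hy0⟩ := exists_far (H := H) (u := v) (r := r + 0) (by omega)
        exact far_card hc hrad (fun y => (le_ecc v y).trans (by omega)) hy0 (by omega) (by omega)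
      · obtain ⟨y0, hy0⟩ := exists_far (H := H) (u := v) (r := r + 1) (by omega)
        exact far_card hc hrad (fun y => (le_ecc v y).trans (by omega)) hy0 (by omega) (by omega)
    have hsub : insert q1 (insert q2 (univ.filter fun y => 3 ≤ H.dist v y)) ⊆ Sᶜ := by
      intro z hz
      rw [mem_compl]
      simp only [mem_insert, mem_filter, mem_univ, true_and] at hz
      rcases hz with rfl | rfl | hz
      · exact hq1S
      · exact hq2S
      · intro hzS
        have := hd v hvS z hzS
        omega
    have hcard := card_le_card hsub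
    rw [card_insert_of_notMem, card_insert_of_notMem] at hcard
    · omega
    · simp only [mem_filter, mem_univ, true_and]
      omega
    · simp only [mem_insert, mem_filter, mem_univ, true_and, not_or]
      refine ⟨?_, by omega⟩
      rintro rfl
      omega

end Pool.Agent.KS6_43.TH
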