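import Pool.Agent.KS6_43.TH.Ext
import Pool.Graph.R_seed8.R451.Ext3

/-!
The two bounds for the `r`-ASC index.
-/

set_option autoImplicit false

open Finset SimpleGraph Pool.Agent.R451.Ext3

namespace Pool.Agent.KS6_43.TH

variable {V : Type}

/-- any two vertices are at distance at most two -/
def Two (G : SimpleGraph V) : Prop := ∀ x y, x = y ∨ G.Adj x y ∨ ∃ z, G.Adj x z ∧ G.Adj z y

/-- every `r`-ASC graph which contains `G` has `2 r - 3` more vertices -/
theorem card_ge [Fintype V] [Nonempty V] {G : SimpleGraph V} (d2 : Two G) {r k : ℕ} (hr : 2 ≤ r)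
    {W : Type} [Fintype W] {H : SimpleGraph W} (hW : Fintype.card W = Fintype.card V + k)
    (hA : IsASC r H) (φ : G ↪g H) : 2 * r ≤ k + 3 := by
  classical
  have hd : ∀ x y, H.dist (φ x) (φ y) ≤ 2 := by
    intro x y
    rcases d2 x y with rfl | h | ⟨z, h1, h2⟩
    · rw [SimpleGraph.dist_self]
      omega
    · rw [dist_eq_one_iff_adj.mpr (φ.map_adj_iff.mpr h)]
      omega
    · exact dist_le (Walk.cons (φ.map_adj_iff.mpr h1) (Walk.cons (φ.map_adj_iff.mpr h2) Walk.nil))
  set S : Finset W := univ.map ⟨φ, φ.injective⟩ with hS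
  have hSc : S.card = Fintype.card V := by rw [hS, card_map, card_univ]
  have h1 := lower hr hA S (by rw [hS]; simp) (by
    intro x hx y hy
    obtain ⟨x', _, rfl⟩ := mem_map.mp hx
    obtain ⟨y', _, rfl⟩ := mem_map.mp hy
    exact hd x' y')
  rw [card_compl, hSc] at h1
  omega

/-- the upper bound for graphs of diameter two -/
theorem asc_two [Fintype V] {G : SimpleGraph V} (d2 : Two G) {w x0 : V} (hne : w ≠ x0)
    (hadj : ¬ G.Adj w x0) {r : ℕ} (hr : 2 ≤ r) :
    IsASC r (extG G {w} {x | x ≠ w ∧ x ≠ x0} (2 * r - 2)) := by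
  classical
  obtain ⟨z, hz1, hz2⟩ : ∃ z, G.Adj w z ∧ G.Adj z x0 := by
    rcases d2 w x0 with h | h | h
    · exact absurd h hne
    · exact absurd h hadj
    · exact h
  have hzw : z ≠ w := hz1.ne'
  have hzx : z ≠ x0 := hz2.ne
  refine asc_ext (x0 := x0) (α := 2) (β := 1) (δ := 1) hr (by omega) (by omega) rfl (Or.inl rfl) d2
    (fun x => if x = w then 0 else if G.Adj x w then 1 else 2)
    (fun x => if x = w ∨ x = x0 then 1 else 0) ⟨w, rfl⟩ ⟨z, hzw, hzx⟩ ?_ ?_ ?_ ?_ ?_ ?_
    (fun x => if x = w then 0 else 2 * r - 1) ?_ ?_ ?_ ?_ ?_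
    (fun x => if x = x0 then 0 else if x = w then 2 else 1) ?_ ?_ ?_ ?_
  · intro x
    unfold Close
    split_ifs with h1 h2
    · exact Or.inl ⟨rfl, h1⟩
    · exact Or.inr (Or.inl ⟨rfl, w, rfl, h2⟩)
    · exact Or.inr (Or.inr le_rfl)
  · intro x
    unfold Close
    split_ifs with h1
    · rcases h1 with rfl | rfl
      · exact Or.inr (Or.inl ⟨rfl, z, ⟨hzw, hzx⟩, hz1⟩)
      · exact Or.inr (Or.inl ⟨rfl, z, ⟨hzw, hzx⟩, hz2.symm⟩)
    · push Not at h1
      exact Or.inl ⟨rfl, h1⟩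
  · intro x hx
    split_ifs <;> simp_all
  · rw [if_neg hne.symm, if_neg (fun h => hadj h.symm)]
  · simp
  · intro _
    exact ⟨w, rfl, z, ⟨hzw, hzx⟩, hz1⟩
  · intro x
    split_ifs <;> omega
  · intro x y hxy
    unfold near
    split_ifs with h1 h2 h2
    · exact absurd (h1.trans h2.symm) hxy.ne
    · omega
    · omega
    · omega
  · intro x hx
    rw [Set.mem_singleton_iff] at hx
    simp only [hx, if_true]
    unfold near
    omega
  · intro x hx
    rw [if_neg hx.1]
    unfold near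
    omega
  · intro t ht h
    rcases h with rfl | h
    · exact ⟨w, by simp⟩
    · refine ⟨x0, ?_⟩
      rw [if_neg hne.symm]
      omega
  · simp
  · intro x y hxy
    by_cases h1 : x = x0
    · subst h1
      have h2 : y ≠ w := by
        rintro rfl
        exact hadj hxy.symm
      simp only [if_true]
      rw [if_neg h2]
      split_ifs <;> omega
    · rw [if_neg h1]
      split_ifs <;> omega
  · intro x hx
    rw [Set.mem_singleton_iff] at hx
    subst hx
    rw [if_neg hne]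
    simp only [if_true]
    omega
  · intro x hx
    rw [if_neg hx.2, if_neg hx.1]
    omega

variable {n : ℕ} {G : SimpleGraph (Fin n)}

lemma exists_third (hn : 3 ≤ n) (u v : Fin n) : ∃ w : Fin n, u ≠ w ∧ v ≠ w := by
  obtain ⟨w, hw⟩ : ∃ w : Fin n, w ∉ ({u, v} : Finset (Fin n)) := by
    by_contra hcon
    push Not at hcon
    have h1 : (univ : Finset (Fin n)) ⊆ {u, v} := fun w _ => hcon w
    have h2 := (card_le_card h1).trans card_le_two
    rw [card_univ, Fintype.card_fin] at h2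
    omega
  simp only [mem_insert, mem_singleton, not_or] at hw
  exact ⟨w, Ne.symm hw.1, Ne.symm hw.2⟩

lemma two_of_good (hG : Good G) (hn : 3 ≤ n) : Two G := by
  intro u v
  by_cases huv : u = v
  · exact Or.inl huv
  · obtain ⟨w, hw1, hw2⟩ := exists_third hn u v
    obtain ⟨y, _, _, _, h1, h2, _⟩ := hG u v w huv hw1 hw2 (true, true, true)
    exact Or.inr (Or.inr ⟨y, h1.mpr rfl, (h2.mpr rfl).symm⟩)

/-- The set of common non-neighbours of `w` and `v`. -/
def YSet (G : SimpleGraph (Fin n)) (w v : Fin n) : Set (Fin n) :=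
  {y | y ≠ w ∧ y ≠ v ∧ ¬ G.Adj w y ∧ ¬ G.Adj v y}

/-- the upper bound for graphs with the extension property -/
theorem asc_good (hG : Good G) (hn : 3 ≤ n) {w v : Fin n} (hwv : w ≠ v) (hadj : ¬ G.Adj w v)
    {r : ℕ} (hr : 2 ≤ r) : IsASC r (extG G {w} (YSet G w v) (2 * r - 3)) := by
  classical
  obtain ⟨y0, hy0⟩ : ∃ y0, y0 ∈ YSet G w v := by
    obtain ⟨x, hx1, hx2⟩ := exists_third hn w v
    obtain ⟨y, hy1, hy2, _, h1, h2, _⟩ := hG w v x hwv hx1 hx2 (false, false, false)
    exact ⟨y, hy1, hy2, fun h => Bool.noConfusion (h1.mp h), fun h => Bool.noConfusion (h2.mp h)⟩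
  have hnb : ∀ x, x ≠ w → x ≠ v → ¬ G.Adj w x → ∃ y ∈ YSet G w v, G.Adj x y := by
    intro x h1 h2 _
    obtain ⟨y, hy1, hy2, hy3, p1, p2, p3⟩ := hG x w v h1 h2 hwv (true, false, false)
    exact ⟨y, ⟨hy2, hy3, fun h => Bool.noConfusion (p2.mp h),
      fun h => Bool.noConfusion (p3.mp h)⟩, p1.mpr rfl⟩
  have hwY : w ∉ YSet G w v := fun h => h.1 rfl
  have hvY : v ∉ YSet G w v := fun h => h.2.1 rfl
  refine asc_ext (x0 := v) (α := 2) (β := 2) (δ := 2) hr (by omega) (by omega) rfl (Or.inr rfl)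
    (two_of_good hG hn)
    (fun x => if x = w then 0 else if G.Adj x w then 1 else 2)
    (fun x => if x ∈ YSet G w v then 0 else if ∃ u ∈ YSet G w v, G.Adj x u then 1 else 2)
    ⟨w, rfl⟩ ⟨y0, hy0⟩ ?_ ?_ ?_ ?_ ?_ ?_
    (fun x => if x = w then 0 else if x ∈ YSet G w v then 2 * r - 2 else 2 * r - 1) ?_ ?_ ?_ ?_ ?_
    (fun x => if x = v then 0 else if G.Adj v x then 1 else 2) ?_ ?_ ?_ ?_
  · intro x
    unfold Close
    split_ifs with h1 h2
    · exact Or.inl ⟨rfl, h1⟩
    · exact Or.inr (Or.inl ⟨rfl, w, rfl, h2⟩)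
    · exact Or.inr (Or.inr le_rfl)
  · intro x
    unfold Close
    split_ifs with h1 h2
    · exact Or.inl ⟨rfl, h1⟩
    · exact Or.inr (Or.inl ⟨rfl, h2⟩)
    · exact Or.inr (Or.inr le_rfl)
  · intro x hx
    by_cases h1 : x = w
    · rw [if_pos h1]
      split_ifs <;> omega
    · rw [if_neg h1]
      by_cases h2 : G.Adj x w
      · rw [if_pos h2]
        split_ifs <;> omega
      · rw [if_neg h2]
        rw [if_pos (hnb x h1 hx fun h => h2 h.symm)]
        split_ifs <;> omega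
  · rw [if_neg hwv.symm, if_neg (fun h => hadj h.symm)]
  · rw [if_neg hvY, if_neg]
    rintro ⟨u, hu, h⟩
    exact hu.2.2.2 h
  · intro h
    omega
  · intro x
    split_ifs <;> omega
  · intro x y hxy
    unfold near
    by_cases h1 : x = w
    · have h2 : y ≠ w := by
        rintro rfl
        exact hxy.ne h1
      have h3 : y ∉ YSet G w v := by
        intro h
        rw [h1] at hxy
        exact h.2.2.1 hxy
      rw [if_pos h1, if_neg h2, if_neg h3]
      omega
    · rw [if_neg h1]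
      by_cases h2 : y = w
      · have h3 : x ∉ YSet G w v := by
          intro h
          rw [h2] at hxy
          exact h.2.2.1 hxy.symm
        rw [if_pos h2, if_neg h3]
        omega
      · rw [if_neg h2]
        split_ifs <;> omega
  · intro x hx
    rw [Set.mem_singleton_iff] at hx
    simp only [hx, if_true]
    unfold near
    omega
  · intro x hx
    have h1 : x ≠ w := hx.1
    rw [if_neg h1, if_pos hx]
    unfold near
    omega
  · intro t ht h
    rcases h with rfl | h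
    · exact ⟨w, by simp⟩
    · rcases (by omega : t = 2 * r - 2 ∨ t = 2 * r - 1) with h1 | h1
      · refine ⟨y0, ?_⟩
        have h2 : y0 ≠ w := hy0.1
        rw [if_neg h2, if_pos hy0]
        omega
      · refine ⟨v, ?_⟩
        rw [if_neg hwv.symm, if_neg hvY]
        omega
  · simp
  · intro x y hxy
    by_cases h1 : x = v
    · subst h1
      rw [if_pos hxy]
      split_ifs <;> omega
    · rw [if_neg h1]
      split_ifs <;> omega
  · intro x hx
    rw [Set.mem_singleton_iff] at hx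
    subst hx
    rw [if_neg hwv, if_neg (fun h => hadj h.symm)]
    omega
  · intro x hx
    rw [if_neg hx.2.1, if_neg hx.2.2.2]
    omega

/-- the index of the graphs with the extension property -/
theorem theta_good (hn : 3 ≤ n) (hG : Good G) {r : ℕ} (hr : 2 ≤ r) : theta r G = 2 * r - 3 := by
  classical
  obtain ⟨w, v, hwv, hadj⟩ : ∃ w v : Fin n, w ≠ v ∧ ¬ G.Adj w v := by
    obtain ⟨y, hy, _, _, h1, _, _⟩ := hG ⟨0, by omega⟩ ⟨1, by omega⟩ ⟨2, by omega⟩
      (by simp) (by simp) (by simp) (false, false, false)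
    exact ⟨_, y, hy.symm, fun h => Bool.noConfusion (h1.mp h)⟩
  have hmem : (2 * r - 3 : ℕ) ∈ {k | ∃ (W : Type) (_ : Fintype W) (H : SimpleGraph W),
      Fintype.card W = Fintype.card (Fin n) + k ∧ IsASC r H ∧ Nonempty (G ↪g H)} := by
    refine ⟨Fin n ⊕ Fin (2 * r - 3), inferInstance, _, by simp, asc_good hG hn hwv hadj hr, ?_⟩
    exact ⟨⟨⟨Sum.inl, Sum.inl_injective⟩, Iff.rfl⟩⟩
  refine le_antisymm (Nat.sInf_le hmem) ?_
  refine le_csInf ⟨_, hmem⟩ ?_
  rintro k ⟨W, _, H, hW, hA, ⟨φ⟩⟩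
  have : Nonempty (Fin n) := ⟨w⟩
  have := card_ge (two_of_good hG hn) hr hW hA φ
  omega

/-- the index of the graphs of diameter two -/
theorem theta_two [Fintype V] {G : SimpleGraph V} (d2 : Two G) {w x0 : V} (hne : w ≠ x0)
    (hadj : ¬ G.Adj w x0) {r : ℕ} (hr : 2 ≤ r) :
    2 * r - 3 ≤ theta r G ∧ theta r G ≤ 2 * r - 2 := by
  classical
  have hmem : (2 * r - 2 : ℕ) ∈ {k | ∃ (W : Type) (_ : Fintype W) (H : SimpleGraph W),
      Fintype.card W = Fintype.card V + k ∧ IsASC r H ∧ Nonempty (G ↪g H)} := by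
    refine ⟨V ⊕ Fin (2 * r - 2), inferInstance, _, by simp, asc_two d2 hne hadj hr, ?_⟩
    exact ⟨⟨⟨Sum.inl, Sum.inl_injective⟩, Iff.rfl⟩⟩
  refine ⟨?_, Nat.sInf_le hmem⟩
  refine le_csInf ⟨_, hmem⟩ ?_
  rintro k ⟨W, _, H, hW, hA, ⟨φ⟩⟩
  have : Nonempty V := ⟨w⟩
  have := card_ge d2 hr hW hA φ
  omega

end Pool.Agent.KS6_43.TH
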